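import Mathlib

set_option autoImplicit false

namespace Pool.Agent.Results.MP_356e41_ag.Counter

open MvPolynomial

/-- the real zero set of the images in `n` variables of `N₆ - 2 N₄ + N₂` and `N₁` -/
def V (n : ℕ) : Set (Fin n → ℝ) :=
  {x | eval x (psum (Fin n) ℝ 6 - 2 * psum (Fin n) ℝ 4 + psum (Fin n) ℝ 2) = 0 ∧
    eval x (psum (Fin n) ℝ 1) = 0}

/-- degree-zero singular cohomology with rational coefficients: the singular `0`-cocycles -/
def H0 (X : Type) [TopologicalSpace X] : Submodule ℚ (X → ℚ) where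
  carrier := {f | ∀ x y, Joined x y → f x = f y}
  add_mem' hf hg x y h := by simp only [Pi.add_apply, hf x y h, hg x y h]
  zero_mem' _ _ _ := rfl
  smul_mem' c f hf x y h := by simp only [Pi.smul_apply, hf x y h]

/-- functions on a subset of `ℝⁿ` invariant under permuting the coordinates -/
def Inv {n : ℕ} (S : Set (Fin n → ℝ)) : Submodule ℚ (S → ℚ) where
  carrier := {f | ∀ (σ : Equiv.Perm (Fin n)) (x y : S), y.1 = x.1 ∘ σ → f y = f x}
  add_mem' hf hg σ x y h := by simp only [Pi.add_apply, hf σ x y h, hg σ x y h]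
  zero_mem' _ _ _ _ := rfl
  smul_mem' c f hf σ x y h := by simp only [Pi.smul_apply, hf σ x y h]

lemma mem_V {n : ℕ} {x : Fin n → ℝ} :
    x ∈ V n ↔ (∀ i, x i = 0 ∨ x i = 1 ∨ x i = -1) ∧ ∑ i, x i = 0 := by
  have h1 : eval x (psum (Fin n) ℝ 6 - 2 * psum (Fin n) ℝ 4 + psum (Fin n) ℝ 2) =
      ∑ i, (x i * (x i - 1) * (x i + 1)) ^ 2 := by
    simp only [psum, map_add, map_sub, map_mul, map_sum, map_pow, eval_X, map_ofNat,
      Finset.mul_sum, ← Finset.sum_sub_distrib, ← Finset.sum_add_distrib]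
    exact Finset.sum_congr rfl fun i _ => by ring
  have h2 : eval x (psum (Fin n) ℝ 1) = ∑ i, x i := by simp [psum]
  simp only [V, Set.mem_ofPred_eq, h1, h2]
  rw [Finset.sum_eq_zero_iff_of_nonneg fun i _ => sq_nonneg _]
  simp [sub_eq_zero, add_eq_zero_iff_eq_neg, or_assoc]

noncomputable def cn {n : ℕ} (x : Fin n → ℝ) (v : ℝ) : ℕ := by
  classical exact (Finset.univ.filter fun i => x i = v).card

lemma cn_facts {n : ℕ} {x : Fin n → ℝ} (hx : x ∈ V n) :
    cn x 1 = cn x (-1) ∧ cn x 0 + cn x 1 + cn x (-1) = n ∧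
      ∀ v, v ≠ 0 → v ≠ 1 → v ≠ -1 → cn x v = 0 := by
  obtain ⟨h1, h2⟩ := mem_V.mp hx
  refine ⟨?_, ?_, fun v a b c => ?_⟩
  · have : ∑ i, x i = (cn x 1 : ℝ) - cn x (-1) := by
      simp only [cn, Finset.card_filter, Nat.cast_sum, ← Finset.sum_sub_distrib]
      refine Finset.sum_congr rfl fun i _ => ?_
      rcases h1 i with h | h | h <;> rw [h] <;> norm_num
    rw [h2] at this
    exact_mod_cast (sub_eq_zero.mp this.symm)
  · simp only [cn, Finset.card_filter, ← Finset.sum_add_distrib]
    rw [Finset.sum_congr rfl (g := fun _ => 1)]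
    · simp
    · intro i _
      rcases h1 i with h | h | h <;> rw [h] <;> norm_num
  · simp only [cn, Finset.card_eq_zero, Finset.filter_eq_empty_iff]
    intro i _ h
    rcases h1 i with h' | h' | h' <;> rw [h'] at h <;> simp_all

lemma exists_perm {n : ℕ} {x y : Fin n → ℝ} (h : ∀ v, cn y v = cn x v) :
    ∃ σ : Equiv.Perm (Fin n), y = x ∘ σ := by
  classical
  let e : ∀ v, {i // y i = v} ≃ {i // x i = v} := fun v => Fintype.equivOfCardEq (by
    rw [Fintype.card_subtype, Fintype.card_subtype]; exact h v)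
  exact ⟨Equiv.ofFiberEquiv e, funext fun i => (Equiv.ofFiberEquiv_map e i).symm⟩

lemma cn_perm {n : ℕ} (x : Fin n → ℝ) (σ : Equiv.Perm (Fin n)) (v : ℝ) : cn (x ∘ σ) v = cn x v := by
  classical
  simp only [cn, Finset.card_filter]
  exact Equiv.sum_comp σ fun i => if x i = v then 1 else 0

lemma exists_pt {n a : ℕ} (h : 2 * a ≤ n) : ∃ x ∈ V n, cn x 1 = a := by
  classical
  obtain ⟨b, rfl⟩ : ∃ b, n = a + a + b := ⟨n - 2 * a, by omega⟩
  refine ⟨Fin.append (Fin.append (fun _ => 1) fun _ => -1) fun _ => 0, mem_V.mpr ⟨?_, ?_⟩, ?_⟩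
  · intro i
    refine Fin.addCases (fun i => Fin.addCases (fun i => ?_) (fun i => ?_) i) (fun i => ?_) i <;>
      simp only [Fin.append_left, Fin.append_right] <;> simp
  · simp only [Fin.sum_univ_add, Fin.append_left, Fin.append_right]
    simp
  · simp only [cn, Finset.card_filter, Fin.sum_univ_add, Fin.append_left, Fin.append_right]
    norm_num

lemma V_finite (n : ℕ) : (V n).Finite := by
  refine (Set.Finite.pi (t := fun _ : Fin n => ({0, 1, -1} : Set ℝ))
    fun _ => Set.toFinite _).subset fun x hx i _ => ?_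
  simpa using (mem_V.mp hx).1 i

lemma H0_top (n : ℕ) : H0 (V n) = ⊤ := by
  have := (V_finite n).to_subtype
  rw [eq_top_iff]
  intro f _ x y h
  have h1 := pathComponent_subset_component x h
  rw [connectedComponent_eq_singleton] at h1
  rw [Set.mem_singleton_iff.mp h1]

lemma mult (n : ℕ) : Module.finrank ℚ (H0 (V n) ⊓ Inv (V n) : Submodule ℚ (V n → ℚ)) = n / 2 + 1 := by
  rw [H0_top, top_inf_eq]
  let c : V n → Fin (n / 2 + 1) := fun x => ⟨cn x.1 1, by have := cn_facts x.2; omega⟩
  have hc : Function.Surjective c := fun a => by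
    obtain ⟨x, hx, h⟩ := exists_pt (n := n) (a := a) (by have := a.2; omega)
    exact ⟨⟨x, hx⟩, Fin.ext h⟩
  have h1 : Inv (V n) = LinearMap.range (LinearMap.funLeft ℚ ℚ c) := by
    ext f
    constructor
    · intro hf
      refine ⟨fun a => f (Function.surjInv hc a), funext fun x => ?_⟩
      have h2 : cn (Function.surjInv hc (c x)).1 1 = cn x.1 1 :=
        congrArg Fin.val (Function.surjInv_eq hc (c x))
      obtain ⟨a1, a2, a3⟩ := cn_facts x.2
      obtain ⟨b1, b2, b3⟩ := cn_facts (Function.surjInv hc (c x)).2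
      obtain ⟨σ, hσ⟩ := exists_perm (x := x.1) (y := (Function.surjInv hc (c x)).1) fun v => by
        by_cases h0 : v = 0
        · subst h0; omega
        by_cases h1 : v = 1
        · subst h1; omega
        by_cases h2 : v = -1
        · subst h2; omega
        rw [a3 v h0 h1 h2, b3 v h0 h1 h2]
      exact hf σ _ _ hσ
    · rintro ⟨g, rfl⟩ σ x y h
      have : c y = c x := Fin.ext (by simp only [c, h, cn_perm])
      simp only [LinearMap.funLeft_apply, this]
  rw [h1, LinearMap.finrank_range_of_inj (LinearMap.funLeft_injective_of_surjective ℚ ℚ c hc)]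
  simp

lemma ev_const {P Q : Polynomial ℚ} {N : ℕ} (h : ∀ t : ℕ, N ≤ t → P.eval (t : ℚ) = Q.eval (t : ℚ)) :
    P = Q := by
  refine Polynomial.eq_of_infinite_eval_eq P Q ?_
  refine ((Set.Ici_infinite N).image (Nat.cast_injective (R := ℚ)).injOn).mono ?_
  rintro _ ⟨t, ht, rfl⟩
  exact h t ht

theorem result :
    (∀ n : ℕ, Module.finrank ℚ (H0 (V n) ⊓ Inv (V n) : Submodule ℚ (V n → ℚ)) = n / 2 + 1) ∧
    ¬ ∃ (P : Polynomial ℚ) (N : ℕ), ∀ n ≥ N,
      (Module.finrank ℚ (H0 (V n) ⊓ Inv (V n) : Submodule ℚ (V n → ℚ)) : ℚ) = P.eval (n : ℚ) := by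
  refine ⟨mult, ?_⟩
  rintro ⟨P, N, h⟩
  simp only [mult] at h
  have h1 : P.comp (2 * Polynomial.X) = Polynomial.X + 1 := ev_const (N := N) fun t ht => by
    have := h (2 * t) (by omega)
    rw [show 2 * t / 2 = t by omega] at this
    simp only [Polynomial.eval_comp, Polynomial.eval_mul, Polynomial.eval_X, Polynomial.eval_add,
      Polynomial.eval_one, Polynomial.eval_ofNat]
    exact_mod_cast this.symm
  have h2 : P.comp (2 * Polynomial.X + 1) = Polynomial.X + 1 := ev_const (N := N) fun t ht => by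
    have := h (2 * t + 1) (by omega)
    rw [show (2 * t + 1) / 2 = t by omega] at this
    simp only [Polynomial.eval_comp, Polynomial.eval_mul, Polynomial.eval_X, Polynomial.eval_add,
      Polynomial.eval_one, Polynomial.eval_ofNat]
    exact_mod_cast this.symm
  have h3 := congrArg (Polynomial.eval (1 / 2 : ℚ)) h1
  have h4 := congrArg (Polynomial.eval (0 : ℚ)) h2
  simp only [Polynomial.eval_comp, Polynomial.eval_mul, Polynomial.eval_X, Polynomial.eval_add,
    Polynomial.eval_one, Polynomial.eval_ofNat] at h3 h4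
  norm_num at h3 h4
  rw [h4] at h3
  norm_num at h3

end Pool.Agent.Results.MP_356e41_ag.Counter
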